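import Pool.Agent.H454.PF.Stm2

/-!
Project PF (helper454), task EX2: the antiderivative step.
-/

set_option autoImplicit false

namespace Pool.Agent.H356.PF

open Complex Filter Topology MeasureTheory Polynomial
open scoped ComplexConjugate
open Pool.Agent.N963.GN Pool.Agent.H454.PF

theorem lpc_diff {ψ : ℂ → ℂ} (h : LPc ψ) : Differentiable ℂ ψ := by
  obtain ⟨_, Q, _, hQ⟩ := h
  have h1 : DifferentiableOn ℂ ψ Set.univ :=
    (tendstoLocallyUniformlyOn_univ.mpr hQ).differentiableOn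
      (Eventually.of_forall fun n => (Polynomial.differentiable_aeval (Q n)).differentiableOn)
      isOpen_univ
  exact differentiableOn_univ.mp h1

theorem iter_diff {ψ : ℂ → ℂ} (hψ : Differentiable ℂ ψ) (n : ℕ) :
    Differentiable ℂ (iteratedDeriv n ψ) :=
  (hψ.contDiff (n := ⊤)).differentiable_iteratedDeriv n (WithTop.coe_lt_top _)

theorem iter_mul {ψ : ℂ → ℂ} (hψ : Differentiable ℂ ψ) (n : ℕ) :
    iteratedDeriv (n + 1) (fun s => s * ψ s) =
      fun s => s * iteratedDeriv (n + 1) ψ s + ((n : ℂ) + 1) * iteratedDeriv n ψ s := by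
  induction n with
  | zero =>
    funext s
    rw [iteratedDeriv_succ, iteratedDeriv_zero, iteratedDeriv_succ, iteratedDeriv_zero]
    have h := (hasDerivAt_id s).mul (hψ s).hasDerivAt
    have h' : deriv (fun s => s * ψ s) s = 1 * ψ s + s * deriv ψ s := h.deriv
    rw [h']
    push_cast
    ring
  | succ n ih =>
    funext s
    rw [iteratedDeriv_succ, ih]
    have h1 := (hasDerivAt_id s).mul ((iter_diff hψ (n + 1)) s).hasDerivAt
    have h2 := ((iter_diff hψ n) s).hasDerivAt.const_mul ((n : ℂ) + 1)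
    have h3 : deriv (fun s => s * iteratedDeriv (n + 1) ψ s + ((n : ℂ) + 1) * iteratedDeriv n ψ s) s =
        (1 * iteratedDeriv (n + 1) ψ s + s * deriv (iteratedDeriv (n + 1) ψ) s) +
          ((n : ℂ) + 1) * deriv (iteratedDeriv n ψ) s := (h1.add h2).deriv
    rw [h3, ← iteratedDeriv_succ, ← iteratedDeriv_succ]
    push_cast
    ring

/-- The antiderivative of a symmetric function. -/
theorem exists_prim {G1 : ℂ → ℂ} (hG : Differentiable ℂ G1) (hs : Sym G1) :
    ∃ G : ℂ → ℂ, G 0 = 0 ∧ (∀ z, HasDerivAt G (G1 z) z) ∧ Sym G := by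
  obtain ⟨G, hG0, hG'⟩ := hG.isExactOn_univ.with_val_at 0 0
  have hd : ∀ z, HasDerivAt G (G1 z) z := fun z => hG' z (Set.mem_univ z)
  refine ⟨G, hG0, hd, ?_⟩
  have hH : ∀ z, HasDerivAt (fun z => conj (G (conj z))) (G1 z) z := by
    intro z
    have h1 := (hd (conj z)).conj_conj
    rw [hs, Complex.conj_conj, Complex.conj_conj] at h1
    exact h1
  have hconst : ∀ z, conj (G (conj z)) - G z = conj (G (conj 0)) - G 0 := by
    intro z
    have hdiff : Differentiable ℂ (fun z => conj (G (conj z)) - G z) := fun z =>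
      ((hH z).sub (hd z)).differentiableAt
    have hder : ∀ z, deriv (fun z => conj (G (conj z)) - G z) z = 0 := fun z => by
      have := ((hH z).sub (hd z)).deriv
      rw [sub_self] at this
      exact this
    exact is_const_of_deriv_eq_zero hdiff hder z 0
  intro z
  have h1 := hconst z
  rw [map_zero, hG0, map_zero, sub_self, sub_eq_zero] at h1
  rw [← h1, Complex.conj_conj]

theorem t_EX2 : S_EX2 := by
  intro ψ X G1 hψ hP
  obtain ⟨hG1, hs, ⟨C, ρ, hC, hρ0, hρ2, hgr⟩, hsum⟩ := hP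
  have hψd := lpc_diff hψ
  obtain ⟨G, hG0, hd, hsym⟩ := exists_prim hG1 hs
  have hder : deriv G = G1 := funext fun z => (hd z).deriv
  refine ⟨G, ⟨fun z => (hd z).differentiableAt, hsym, ⟨C + 1, max ρ 1, by linarith,
    le_max_of_le_left hρ0, max_lt hρ2 (by norm_num), ?_⟩, ?_⟩, fun z => (hd z).deriv⟩
  · intro z
    have hz : (0 : ℝ) ≤ ‖z‖ := norm_nonneg z
    have h1 : ‖G z - G 0‖ ≤ Real.exp (C * (1 + ‖z‖) ^ ρ) * ‖z - 0‖ := by
      refine (convex_closedBall (0 : ℂ) ‖z‖).norm_image_sub_le_of_norm_deriv_le (𝕜 := ℂ)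
        (fun x _ => (hd x).differentiableAt) (fun x hx => ?_)
        (Metric.mem_closedBall_self hz) (by rw [mem_closedBall_zero_iff])
      rw [hder]
      refine (hgr x).trans (Real.exp_le_exp.mpr (mul_le_mul_of_nonneg_left ?_ hC))
      rw [mem_closedBall_zero_iff] at hx
      exact Real.rpow_le_rpow (by positivity) (by linarith) hρ0
    rw [hG0, sub_zero, sub_zero] at h1
    have h2 : (1 + ‖z‖) ^ ρ ≤ (1 + ‖z‖) ^ (max ρ 1) :=
      Real.rpow_le_rpow_of_exponent_le (by linarith) (le_max_left _ _)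
    have h3 : 1 + ‖z‖ ≤ (1 + ‖z‖) ^ (max ρ 1) := by
      calc 1 + ‖z‖ = (1 + ‖z‖) ^ (1 : ℝ) := (Real.rpow_one _).symm
        _ ≤ _ := Real.rpow_le_rpow_of_exponent_le (by linarith) (le_max_right _ _)
    have h4 : ‖z‖ ≤ Real.exp ((1 + ‖z‖) ^ (max ρ 1)) := by
      have := Real.add_one_le_exp ((1 + ‖z‖) ^ (max ρ 1))
      linarith
    calc ‖G z‖ ≤ Real.exp (C * (1 + ‖z‖) ^ ρ) * ‖z‖ := h1
      _ ≤ Real.exp (C * (1 + ‖z‖) ^ (max ρ 1)) * Real.exp ((1 + ‖z‖) ^ (max ρ 1)) :=
          mul_le_mul (Real.exp_le_exp.mpr (mul_le_mul_of_nonneg_left h2 hC)) h4 hz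
            (Real.exp_pos _).le
      _ = Real.exp ((C + 1) * (1 + ‖z‖) ^ (max ρ 1)) := by
          rw [← Real.exp_add]; congr 1; ring
  · intro z
    have h0 : trm (fun s => s * ψ s) G z 0 = 0 := by
      unfold trm
      rw [iteratedDeriv_zero]
      simp
    have h1 : ∀ n, trm (fun s => s * ψ s) G z (n + 1) = trm ψ G1 z n := by
      intro n
      unfold trm
      have e1 : iteratedDeriv (n + 1) G z = iteratedDeriv n G1 z := by
        rw [iteratedDeriv_succ', hder]
      have e2 : iteratedDeriv (n + 1) (fun s => s * ψ s) 0 =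
          0 * iteratedDeriv (n + 1) ψ 0 + ((n : ℂ) + 1) * iteratedDeriv n ψ 0 :=
        congrFun (iter_mul hψd n) 0
      rw [e1, e2, zero_mul, zero_add, Nat.factorial_succ]
      have hn : ((n : ℂ) + 1) ≠ 0 := Nat.cast_add_one_ne_zero n
      have hf : ((n.factorial : ℕ) : ℂ) ≠ 0 := Nat.cast_ne_zero.mpr (Nat.factorial_ne_zero n)
      push_cast
      field_simp
    rw [← hasSum_nat_add_iff' 1]
    rw [Finset.sum_range_one, h0, sub_zero]
    have h2 : (fun n => trm (fun s => s * ψ s) G z (n + 1)) = trm ψ G1 z := funext h1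
    rw [h2]
    exact hsum z

end Pool.Agent.H356.PF
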